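import Pool.Agent.Y219.EGH.Deg

/-!
The degree of a subscheme of a zero-dimensional complete intersection in projective space which fails
to impose independent conditions: the case `k = c - 2`.
-/

open MvPolynomial

namespace Pool.Agent.Results.MP_47ab85_ag.PenultimateInterval

/-- Let `K` be algebraically closed.

(1) Let `F_1, …, F_t` be forms of degrees at most `a` on `ℙ^c` with only finitely many common zeros,
and let `Γ` be a subscheme of their common zero scheme (saturated homogeneous ideal `J`, Hilbert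
function `h`, degree `deg`).  If `Γ` fails to impose independent conditions on hypersurfaces of degree
`m` and `m + 1 = (a - 1) + (δ - 1)` with `1 ≤ δ ≤ a`, then `deg ≥ δ a`.

(2) The bound of the problem for `k = c - 2`, with the letters of the problem: the forms `F_1, …, F_c`
have degrees `1 ≤ d_1 ≤ … ≤ d_c` and define a zero-dimensional scheme, and
`d_c - 1 ≤ m + 1 < (d_(c-1) - 1) + (d_c - 1)`; then `deg ≥ (e + 1) d_c`, `e = m + 1 - (d_c - 1)`. -/
theorem result (K : Type*) [Field K] [IsAlgClosed K] (c : ℕ)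
    (J : Ideal (MvPolynomial (Fin (c + 1)) K)) (hJ : ∀ f ∈ J, ∀ n, homogeneousComponent n f ∈ J)
    (hsat : ∀ f : MvPolynomial (Fin (c + 1)) K, (∃ N : ℕ, ∀ i, X i ^ N * f ∈ J) → f ∈ J)
    (h : ℕ → ℕ)
    (hh : ∀ n, h n = Module.finrank K (homogeneousSubmodule (Fin (c + 1)) K n) -
      Module.finrank K
        ↥(Submodule.restrictScalars K J ⊓ homogeneousSubmodule (Fin (c + 1)) K n))
    (deg : ℕ) (hdeg : ∃ N, ∀ n ≥ N, h n = deg) (m : ℕ) (hm : h m < deg) :
    (∀ (t a δ : ℕ) (d : Fin t → ℕ) (F : Fin t → MvPolynomial (Fin (c + 1)) K),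
      (∀ i, (F i).IsHomogeneous (d i)) → (∀ i, d i ≤ a) →
      (∀ j, Set.Finite {x : Fin (c + 1) → K | x j = 1 ∧ ∀ i, eval x (F i) = 0}) →
      (∀ i, F i ∈ J) → 1 ≤ δ → δ ≤ a → m + 3 = a + δ → δ * a ≤ deg) ∧
    (∀ (d : ℕ → ℕ) (F : ℕ → MvPolynomial (Fin (c + 1)) K),
      (∀ i ∈ Finset.Icc 1 c, 1 ≤ d i) → (∀ i j : ℕ, 1 ≤ i → i ≤ j → j ≤ c → d i ≤ d j) →
      (∀ i ∈ Finset.Icc 1 c, (F i).IsHomogeneous (d i)) →
      (∀ j, Set.Finite {x : Fin (c + 1) → K | x j = 1 ∧ ∀ i ∈ Finset.Icc 1 c, eval x (F i) = 0}) →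
      (∀ i ∈ Finset.Icc 1 c, F i ∈ J) → ∀ k : ℕ, k + 2 = c →
      (∑ i ∈ Finset.Icc (k + 2) c, (d i - 1)) ≤ m + 1 →
      m + 1 < ∑ i ∈ Finset.Icc (k + 1) c, (d i - 1) →
      (m + 1 - (∑ i ∈ Finset.Icc (k + 2) c, (d i - 1)) + 1) * ∏ i ∈ Finset.Icc (k + 2) c, d i ≤
        deg) := by
  refine ⟨fun t a δ d F hF hd hfin hFJ hδ1 hδa hr =>
    Y219.EGH.deg_finite c t a δ hδ1 hδa d F hF hd hfin J hJ hsat hFJ h hh deg hdeg m hm hr, ?_⟩
  intro d F hd1 hmono hF hfin hFJ k hk h1 h2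
  subst hk
  have e1 : Finset.Icc (k + 2) (k + 2) = {k + 2} := Finset.Icc_self _
  have e2 : Finset.Icc (k + 1) (k + 2) = {k + 1, k + 2} := by
    ext i
    simp only [Finset.mem_Icc, Finset.mem_insert, Finset.mem_singleton]
    omega
  rw [e1, Finset.sum_singleton] at h1
  rw [e2, Finset.sum_pair (by omega)] at h2
  rw [e1, Finset.sum_singleton, Finset.prod_singleton]
  have h3 := hd1 (k + 2) (Finset.mem_Icc.2 ⟨by omega, le_rfl⟩)
  have h4 := hd1 (k + 1) (Finset.mem_Icc.2 ⟨by omega, by omega⟩)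
  have h5 := hmono (k + 1) (k + 2) (by omega) (by omega) le_rfl
  refine Y219.EGH.deg_finite (k + 2) (k + 2) (d (k + 2)) (m + 1 - (d (k + 2) - 1) + 1) (by omega)
    (by omega) (fun i => d (i.val + 1)) (fun i => F (i.val + 1))
    (fun i => hF _ (Finset.mem_Icc.2 ⟨by omega, by omega⟩))
    (fun i => hmono _ _ (by omega) (by omega) le_rfl) ?_ J hJ hsat
    (fun i => hFJ _ (Finset.mem_Icc.2 ⟨by omega, by omega⟩)) h hh deg hdeg m hm (by omega)
  intro j
  refine (hfin j).subset ?_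
  rintro x ⟨hx, hx'⟩
  refine ⟨hx, fun i hi => ?_⟩
  rw [Finset.mem_Icc] at hi
  have h6 := hx' ⟨i - 1, by omega⟩
  rw [show (⟨i - 1, by omega⟩ : Fin (k + 2)).val + 1 = i by simp only; omega] at h6
  exact h6

end Pool.Agent.Results.MP_47ab85_ag.PenultimateInterval
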